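import Pool.Agent.Run7.h875.CU.App

/-!
# Type I local approximation of stably finite nuclear C*-algebras: the answer is negative

The unitised cone over the Cuntz algebra `O₂` is separable, nuclear and stably finite, but it is
not locally approximable by type I C*-algebras: no type I C*-subalgebra comes closer than `1/10`
to both functions `t ↦ t s_b`, where `s_0`, `s_1` are the generators of `O₂`.
-/

set_option autoImplicit false

open scoped CStarAlgebra ComplexOrder

namespace Pool.Agent.Results.MP_b9f29c_an.UnitisedCone

open Pool.Agent.W658

/-- There is a unital C*-algebra which is separable, nuclear and stably finite and which is not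
locally approximable by type I C*-algebras.  -/
theorem result : ∃ (A : Type) (_ : CStarAlgebra A) (_ : PartialOrder A) (_ : StarOrderedRing A),
    TopologicalSpace.SeparableSpace A ∧ TypeI.IsNuclear A ∧ TypeI.IsStablyFinite A ∧
    ¬ TypeI.LocallyTypeI A :=
  ⟨Cone.CA, inferInstance, inferInstance, inferInstance, Cone.separable_CA, Cone.nuclear_CA,
    Run7.h875.CU.stablyFinite, Run7.h875.CU.not_locallyTypeI⟩

end Pool.Agent.Results.MP_b9f29c_an.UnitisedCone
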